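import Mathlib
import Pool.Agent.W536.XI.Stm

/-!
Project XI, task MOMD: the kernel sum.
-/

open Complex MeasureTheory Filter Topology

open W536.XI

namespace Pool.Agent.W91.XI

/-- the telescoping comparison function -/
noncomputable def psi (r q d : ℝ) : ℝ := r * q ^ 2 / (r * d + q)

theorem key {r q d k : ℝ} (hr : 0 < r) (hq : 0 < q) (hd : 1 ≤ d) (hk0 : 0 ≤ k)
    (hk1 : k ≤ 2 * r) (hk2 : k ≤ 2 * q / d) :
    k ^ 2 ≤ 16 * (psi r q (d - 1) - psi r q d) := by
  have hA : 0 < r * (d - 1) + q := by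
    have : 0 ≤ r * (d - 1) := mul_nonneg hr.le (by linarith)
    linarith
  have hB : 0 < r * d + q := by
    have : 0 ≤ r * d := mul_nonneg hr.le (by linarith)
    linarith
  have e : psi r q (d - 1) - psi r q d =
      r ^ 2 * q ^ 2 / ((r * (d - 1) + q) * (r * d + q)) := by
    unfold psi
    rw [div_sub_div _ _ hA.ne' hB.ne']
    congr 1
    ring
  rw [e, ← mul_div_assoc, le_div_iff₀ (mul_pos hA hB)]
  have hd0 : 0 < d := by linarith
  rcases le_total (r * d) q with h | h
  · have h1 : k ^ 2 ≤ (2 * r) ^ 2 := pow_le_pow_left₀ hk0 hk1 2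
    have h2 : (r * (d - 1) + q) * (r * d + q) ≤ (2 * q) * (2 * q) := by
      apply mul_le_mul _ (by linarith) hB.le (by linarith)
      nlinarith
    calc k ^ 2 * ((r * (d - 1) + q) * (r * d + q))
        ≤ (2 * r) ^ 2 * ((2 * q) * (2 * q)) :=
          mul_le_mul h1 h2 (mul_pos hA hB).le (by positivity)
      _ = 16 * (r ^ 2 * q ^ 2) := by ring
  · have h1 : k ^ 2 ≤ (2 * q / d) ^ 2 := pow_le_pow_left₀ hk0 hk2 2
    have h2 : (r * (d - 1) + q) * (r * d + q) ≤ (2 * (r * d)) * (2 * (r * d)) := by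
      apply mul_le_mul _ (by linarith) hB.le (by positivity)
      nlinarith
    calc k ^ 2 * ((r * (d - 1) + q) * (r * d + q))
        ≤ (2 * q / d) ^ 2 * ((2 * (r * d)) * (2 * (r * d))) :=
          mul_le_mul h1 h2 (mul_pos hA hB).le (by positivity)
      _ = 16 * (r ^ 2 * q ^ 2) := by
          field_simp
          ring

/-- the summand -/
noncomputable def ff (r : ℝ) (p q : ℕ) : ℝ :=
  kk r (Real.log p - Real.log q) ^ 2 *
      (Real.exp (-(1 / 2) * (Real.log p - Real.log q) ^ 2) / Real.sqrt (p * q)) ^ 2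

theorem ff_symm (r : ℝ) (p q : ℕ) : ff r p q = ff r q p := by
  unfold ff
  have h1 : kk r (Real.log p - Real.log q) = kk r (Real.log q - Real.log p) := by
    unfold kk
    by_cases h : Real.log p - Real.log q = 0
    · have h' : Real.log q - Real.log p = 0 := by linarith
      rw [if_pos h, if_pos h']
    · have h' : Real.log q - Real.log p ≠ 0 := fun h' => h (by linarith)
      rw [if_neg h, if_neg h', abs_sub_comm]
  have h2 : (Real.log p - Real.log q) ^ 2 = (Real.log q - Real.log p) ^ 2 := by ring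
  rw [h1, h2, mul_comm (p : ℝ) q]

theorem ff_le {r : ℝ} (hr : 0 < r) {p q : ℕ} (hp : 1 ≤ p) (hpq : p < q) :
    ff r p q ≤ 32 / (q : ℝ) ^ 2 * (psi r q ((q : ℝ) - ((p + 1 : ℕ) : ℝ)) - psi r q ((q : ℝ) - p)) := by
  have hp0 : (0 : ℝ) < p := by exact_mod_cast hp
  have hq0 : (0 : ℝ) < q := by exact_mod_cast (by omega : 0 < q)
  have hd : (1 : ℝ) ≤ (q : ℝ) - p := by
    have : ((p + 1 : ℕ) : ℝ) ≤ q := by exact_mod_cast hpq
    push_cast at this
    linarith
  have hx : ((q : ℝ) - p) / q ≤ Real.log q - Real.log p := by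
    rw [← Real.log_div hq0.ne' hp0.ne']
    have := Real.one_sub_inv_le_log_of_pos (div_pos hq0 hp0)
    have e : 1 - ((q : ℝ) / p)⁻¹ = ((q : ℝ) - p) / q := by
      rw [inv_div]
      field_simp
    linarith
  have hx0 : 0 < Real.log q - Real.log p := lt_of_lt_of_le (div_pos (by linarith) hq0) hx
  have hkk : kk r (Real.log p - Real.log q) = min (2 * r) (2 / (Real.log q - Real.log p)) := by
    have hne : ¬ (Real.log p - Real.log q = 0) := by
      intro h
      linarith
    unfold kk
    rw [if_neg hne, abs_sub_comm, abs_of_pos hx0]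
  have hk0 : 0 ≤ kk r (Real.log p - Real.log q) := by
    rw [hkk]
    exact le_min (by positivity) (by positivity)
  have hk1 : kk r (Real.log p - Real.log q) ≤ 2 * r := by
    rw [hkk]
    exact min_le_left _ _
  have hk2 : kk r (Real.log p - Real.log q) ≤ 2 * q / ((q : ℝ) - p) := by
    rw [hkk]
    refine (min_le_right _ _).trans ?_
    rw [div_le_div_iff₀ hx0 (by linarith)]
    rw [div_le_iff₀ hq0] at hx
    nlinarith
  have hkey := key hr hq0 hd hk0 hk1 hk2
  have hexp : (Real.exp (-(1 / 2) * (Real.log p - Real.log q) ^ 2) / Real.sqrt (p * q)) ^ 2 ≤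
      2 / (q : ℝ) ^ 2 := by
    rw [div_pow, Real.sq_sqrt (by positivity), ← Real.exp_nat_mul]
    have h1 : Real.exp (((2 : ℕ) : ℝ) * (-(1 / 2) * (Real.log p - Real.log q) ^ 2)) ≤
        Real.exp (1 / 4) * (p / q) := by
      have e : (p : ℝ) / q = Real.exp (Real.log p - Real.log q) := by
        rw [Real.exp_sub, Real.exp_log hp0, Real.exp_log hq0]
      rw [e, ← Real.exp_add]
      apply Real.exp_le_exp.mpr
      push_cast
      nlinarith [sq_nonneg (Real.log q - Real.log p - 1 / 2)]
    have h2 : Real.exp (1 / 4) ≤ 2 := by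
      have := Real.exp_one_lt_d9
      have h3 : Real.exp (1 / 4) ≤ Real.exp 1 := Real.exp_le_exp.mpr (by norm_num)
      have h4 : Real.exp (1 / 4) ^ 4 = Real.exp 1 := by
        rw [← Real.exp_nat_mul]
        norm_num
      by_contra h5
      push Not at h5
      have h6 : (2 : ℝ) ^ 4 < Real.exp (1 / 4) ^ 4 := pow_lt_pow_left₀ h5 (by norm_num) (by norm_num)
      rw [h4] at h6
      norm_num at h6
      linarith
    rw [div_le_div_iff₀ (by positivity) (by positivity)]
    calc Real.exp (((2 : ℕ) : ℝ) * (-(1 / 2) * (Real.log p - Real.log q) ^ 2)) * (q : ℝ) ^ 2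
        ≤ (2 * (p / q)) * (q : ℝ) ^ 2 := by
          apply mul_le_mul_of_nonneg_right _ (by positivity)
          exact h1.trans (mul_le_mul_of_nonneg_right h2 (by positivity))
      _ = 2 * ((p : ℝ) * q) := by
          field_simp
  have e1 : (q : ℝ) - ((p + 1 : ℕ) : ℝ) = (q : ℝ) - p - 1 := by
    push_cast
    ring
  rw [e1]
  unfold ff
  calc kk r (Real.log p - Real.log q) ^ 2 *
      (Real.exp (-(1 / 2) * (Real.log p - Real.log q) ^ 2) / Real.sqrt (p * q)) ^ 2
      ≤ (16 * (psi r q ((q : ℝ) - p - 1) - psi r q ((q : ℝ) - p))) * (2 / (q : ℝ) ^ 2) := by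
        apply mul_le_mul hkey hexp (by positivity)
        exact (sq_nonneg _).trans hkey
    _ = _ := by ring

theorem psi_mono {r q a b : ℝ} (hr : 0 < r) (hq : 0 < q) (ha : 0 ≤ a) (hab : a ≤ b) :
    psi r q b ≤ psi r q a := by
  unfold psi
  have h1 : 0 < r * a + q := by positivity
  apply div_le_div_of_nonneg_left (by positivity) h1
  nlinarith

theorem inner {r : ℝ} (hr : 0 < r) (M : ℕ) {q : ℕ} (hq : 1 ≤ q) :
    ∑ p ∈ Finset.Icc 1 M, (if p < q then ff r p q else 0) ≤ 32 * r / q := by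
  have hq0 : (0 : ℝ) < q := by exact_mod_cast hq
  rw [← Finset.sum_filter]
  set g : ℕ → ℝ := fun p => psi r q ((q : ℝ) - p) with hg
  have hg' : ∀ p, p < q → 0 ≤ g (p + 1) - g p := by
    intro p hp
    have h1 : ((p + 1 : ℕ) : ℝ) ≤ q := by exact_mod_cast hp
    have := psi_mono (a := (q : ℝ) - ((p + 1 : ℕ) : ℝ)) (b := (q : ℝ) - p) hr hq0 (by linarith)
      (by push_cast; linarith)
    simp only [hg]
    linarith
  calc ∑ p ∈ (Finset.Icc 1 M).filter (fun p => p < q), ff r p q
      ≤ ∑ p ∈ (Finset.Icc 1 M).filter (fun p => p < q), 32 / (q : ℝ) ^ 2 * (g (p + 1) - g p) := by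
        apply Finset.sum_le_sum
        intro p hp
        rw [Finset.mem_filter, Finset.mem_Icc] at hp
        exact ff_le hr hp.1.1 hp.2
    _ ≤ ∑ p ∈ Finset.range q, 32 / (q : ℝ) ^ 2 * (g (p + 1) - g p) := by
        apply Finset.sum_le_sum_of_subset_of_nonneg
        · intro p hp
          rw [Finset.mem_filter] at hp
          exact Finset.mem_range.mpr hp.2
        · intro p hp _
          exact mul_nonneg (by positivity) (hg' p (Finset.mem_range.mp hp))
    _ = 32 / (q : ℝ) ^ 2 * (g q - g 0) := by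
        rw [← Finset.mul_sum, Finset.sum_range_sub]
    _ ≤ 32 / (q : ℝ) ^ 2 * (r * q) := by
        apply mul_le_mul_of_nonneg_left _ (by positivity)
        have h1 : g q = r * q := by
          simp only [hg, psi, sub_self, mul_zero, zero_add]
          field_simp
        have h2 : 0 ≤ g 0 := by
          simp only [hg, psi]
          push_cast
          positivity
        linarith
    _ = 32 * r / q := by
        field_simp

theorem momd : S_MOMD := by
  refine ⟨64, ?_⟩
  intro M r hM hr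
  have hr0 : 0 < r := by linarith
  have hsplit : (∑ p ∈ Finset.Icc 1 M, ∑ q ∈ Finset.Icc 1 M, if p = q then 0 else ff r p q) =
      2 * ∑ q ∈ Finset.Icc 1 M, ∑ p ∈ Finset.Icc 1 M, (if p < q then ff r p q else 0) := by
    have h1 : ∀ p q : ℕ, (if p = q then 0 else ff r p q) =
        (if p < q then ff r p q else 0) + (if q < p then ff r q p else 0) := by
      intro p q
      rcases lt_trichotomy p q with h | h | h
      · rw [if_neg h.ne, if_pos h, if_neg (by omega), add_zero]
      · subst h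
        simp
      · rw [if_neg h.ne', if_neg (by omega), if_pos h, zero_add, ff_symm]
    simp only [h1, Finset.sum_add_distrib]
    rw [Finset.sum_comm, two_mul]
  have hh : (∑ p ∈ Finset.Icc 1 M, ∑ q ∈ Finset.Icc 1 M, if p = q then 0 else
    kk r (Real.log p - Real.log q) ^ 2 *
      (Real.exp (-(1 / 2) * (Real.log p - Real.log q) ^ 2) / Real.sqrt (p * q)) ^ 2) =
      2 * ∑ q ∈ Finset.Icc 1 M, ∑ p ∈ Finset.Icc 1 M, (if p < q then ff r p q else 0) := hsplit
  rw [hh]
  have h2 : ∑ q ∈ Finset.Icc 1 M, ∑ p ∈ Finset.Icc 1 M, (if p < q then ff r p q else 0) ≤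
      ∑ q ∈ Finset.Icc 1 M, 32 * r / q := by
    apply Finset.sum_le_sum
    intro q hq
    exact inner hr0 M (Finset.mem_Icc.mp hq).1
  have h3 : ∑ q ∈ Finset.Icc 1 M, 32 * r / q = 32 * r * ∑ q ∈ Finset.Icc 1 M, ((q : ℝ))⁻¹ := by
    rw [Finset.mul_sum]
    rfl
  have h4 : ∑ q ∈ Finset.Icc 1 M, ((q : ℝ))⁻¹ ≤ 1 + Real.log M := by
    have := harmonic_le_one_add_log M
    rw [harmonic_eq_sum_Icc] at this
    push_cast at this
    exact this
  have h5 : 32 * r * ∑ q ∈ Finset.Icc 1 M, ((q : ℝ))⁻¹ ≤ 32 * r * (1 + Real.log M) :=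
    mul_le_mul_of_nonneg_left h4 (by positivity)
  nlinarith

end Pool.Agent.W91.XI
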